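import Pool.Agent.Q175.PG.Tree

/-!
# Percolation games: Breaker wins from every root
-/

namespace Pool.Agent.Q175.PG

open Finset

namespace Dart

/-- The vertex behind the edge. -/
def head : Dart → Option Ed
  | dn x => some x
  | up x => par x

lemma succ_dn {x y : Ed} (h : par y = some x) : dn y ∈ (dn x).succ := by
  obtain ⟨v, j⟩ := y
  by_cases hj : j.val < 6
  · rw [par_lt v j hj, Option.some.injEq] at h
    subst h
    simp only [succ, Nat.succ_ne_zero, dite_false, mem_singleton]
    congr 1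
  · obtain rfl := fin_six hj
    cases v with
    | nil => rw [par_nil] at h; exact absurd h (by simp)
    | cons i w =>
      rw [par_cons, Option.some.injEq] at h
      subst h
      simp only [succ, Fin.val_zero, dite_true, mem_image]
      exact ⟨i, mem_univ i, rfl⟩

lemma succ_up_up {x z : Ed} (h : par x = some z) : up z ∈ (up x).succ := by
  obtain ⟨v, j⟩ := x
  by_cases hj : j.val < 6
  · rw [par_lt v j hj, Option.some.injEq] at h
    subst h
    simp only [succ, hj, dite_true, mem_singleton]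
  · obtain rfl := fin_six hj
    cases v with
    | nil => rw [par_nil] at h; exact absurd h (by simp)
    | cons i w =>
      rw [par_cons, Option.some.injEq] at h
      subst h
      have h6 : ¬ ((6 : Fin 7).val < 6) := by decide
      simp only [succ, h6, dite_false]
      exact mem_insert_self _ _

lemma succ_up_dn {x y : Ed} (h : par y = par x) (hne : y ≠ x) : dn y ∈ (up x).succ := by
  obtain ⟨v, j⟩ := x
  obtain ⟨u, k⟩ := y
  by_cases hj : j.val < 6
  · exfalso
    rw [par_lt v j hj] at h
    by_cases hk : k.val < 6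
    · rw [par_lt u k hk, Option.some.injEq, Prod.mk.injEq, Fin.ext_iff] at h
      apply hne
      rw [Prod.mk.injEq, Fin.ext_iff]
      exact ⟨h.1, by simpa using h.2⟩
    · obtain rfl := fin_six hk
      cases u with
      | nil => rw [par_nil] at h; exact absurd h (by simp)
      | cons i w =>
        rw [par_cons, Option.some.injEq, Prod.mk.injEq, Fin.ext_iff] at h
        simp at h
  · obtain rfl := fin_six hj
    have h6 : ¬ ((6 : Fin 7).val < 6) := by decide
    cases v with
    | nil =>
      exfalso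
      rw [par_nil] at h
      by_cases hk : k.val < 6
      · rw [par_lt u k hk] at h
        exact absurd h (by simp)
      · obtain rfl := fin_six hk
        cases u with
        | nil => exact hne rfl
        | cons i w => rw [par_cons] at h; exact absurd h (by simp)
    | cons i w =>
      rw [par_cons] at h
      by_cases hk : k.val < 6
      · rw [par_lt u k hk, Option.some.injEq, Prod.mk.injEq, Fin.ext_iff] at h
        simp at h
      · obtain rfl := fin_six hk
        cases u with
        | nil => rw [par_nil] at h; exact absurd h (by simp)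
        | cons i' w' =>
          rw [par_cons, Option.some.injEq, Prod.mk.injEq] at h
          obtain ⟨rfl, _⟩ := h
          simp only [succ, h6, dite_false, mem_insert, mem_image, mem_erase]
          right
          refine ⟨i', ⟨?_, mem_univ _⟩, rfl⟩
          rintro rfl
          exact hne rfl

lemma tail_dn {d : Dart} {y : Ed} (h : dn y ∈ d.succ) : par y = d.head := by
  cases d with
  | dn x =>
    obtain ⟨v, j⟩ := x
    by_cases hj : j.val = 0
    · obtain rfl : j = 0 := Fin.ext hj
      simp only [succ, Fin.val_zero, dite_true, mem_image] at h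
      obtain ⟨i, _, h⟩ := h
      rw [dn.injEq] at h
      subst h
      exact par_cons i v
    · simp only [succ, hj, dite_false, mem_singleton, dn.injEq] at h
      subst h
      have hlt : j.val - 1 < 6 := by have := j.2; omega
      rw [par_lt v _ hlt]
      simp only [head, Option.some.injEq, Prod.mk.injEq, Fin.ext_iff, true_and]
      omega
  | up x =>
    obtain ⟨v, j⟩ := x
    by_cases hj : j.val < 6
    · simp [succ, hj] at h
    · obtain rfl := fin_six hj
      have h6 : ¬ ((6 : Fin 7).val < 6) := by decide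
      cases v with
      | nil => simp [succ] at h
      | cons i w =>
        simp only [succ, h6, dite_false, mem_insert, mem_image, mem_erase] at h
        rcases h with h | ⟨i', _, h⟩
        · exact absurd h (by simp)
        · rw [dn.injEq] at h
          subst h
          rw [par_cons]
          exact (par_cons i w).symm

lemma tail_up {d : Dart} {y : Ed} (h : up y ∈ d.succ) : some y = d.head := by
  cases d with
  | dn x =>
    obtain ⟨v, j⟩ := x
    by_cases hj : j.val = 0
    · simp [succ, hj] at h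
    · simp [succ, hj] at h
  | up x =>
    obtain ⟨v, j⟩ := x
    by_cases hj : j.val < 6
    · simp only [succ, hj, dite_true, mem_singleton, up.injEq] at h
      subst h
      exact (par_lt v j hj).symm
    · obtain rfl := fin_six hj
      have h6 : ¬ ((6 : Fin 7).val < 6) := by decide
      cases v with
      | nil => simp [succ] at h
      | cons i w =>
        simp only [succ, h6, dite_false, mem_insert, mem_image, mem_erase] at h
        rcases h with h | ⟨i', _, h⟩
        · rw [up.injEq] at h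
          subst h
          exact (par_cons i w).symm
        · exact absurd h (by simp)

/-- The number of the edges of `M` behind the dart. -/
def num (M : Finset Ed) (d : Dart) : ℕ := (M.filter (fun y => d.Br y)).card

/-- The danger of the dart. -/
def dan (M : Finset Ed) (d : Dart) : ℕ := d.off + d.num M

lemma sum_num_le (M : Finset Ed) (G : Finset Dart)
    (hG : ∀ d₁ ∈ G, ∀ d₂ ∈ G, ∀ y, d₁.Br y → d₂.Br y → d₁ = d₂) (S : Finset Ed)
    (hS : ∀ d ∈ G, ∀ y ∈ M, d.Br y → y ∈ S) : ∑ d ∈ G, d.num M ≤ S.card := by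
  unfold num
  rw [← card_biUnion]
  · apply card_le_card
    intro y hy
    rw [mem_biUnion] at hy
    obtain ⟨d, hd, hy⟩ := hy
    rw [mem_filter] at hy
    exact hS d hd y hy.1 hy.2
  · intro d₁ h₁ d₂ h₂ hne
    show Disjoint _ _
    rw [disjoint_left]
    intro y hy₁ hy₂
    rw [mem_filter] at hy₁ hy₂
    exact hne (hG d₁ h₁ d₂ h₂ y hy₁.2 hy₂.2)

lemma sum_succ_num (M : Finset Ed) (d : Dart) (h : d.edge ∈ M) :
    ∑ d' ∈ d.succ, d'.num M + 1 ≤ d.num M := by
  have h1 := sum_num_le M d.succ (fun d₁ h₁ d₂ h₂ y => succ_disj d d₁ d₂ h₁ h₂ y)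
    ((M.filter (fun y => d.Br y)).erase d.edge) (by
      intro d' hd' y hy hb
      have := succ_br d d' hd' y hb
      rw [mem_erase, mem_filter]
      exact ⟨this.2, hy, this.1⟩)
  have h2 : d.edge ∈ M.filter (fun y => d.Br y) := by
    rw [mem_filter]
    exact ⟨h, br_edge d⟩
  rw [card_erase_of_mem h2] at h1
  have h3 : 0 < (M.filter (fun y => d.Br y)).card := card_pos.mpr ⟨_, h2⟩
  unfold num at h1 ⊢
  omega

lemma num_union (M X : Finset Ed) (d : Dart) : d.num (M ∪ X) ≤ d.num M + d.num X := by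
  unfold num
  rw [filter_union]
  exact card_union_le _ _

end Dart

open Dart

/-- The state of the game from the point of view of Breaker. -/
structure St (v₀ : Option Ed) (B : Finset Ed) (G : Finset Dart) (K : Set (Option Ed)) : Prop where
  root : v₀ ∈ K
  fin : K.Finite
  c1 : ∀ y, par y ∈ K → y ∉ B → some y ∈ K ∨ dn y ∈ G
  c2 : ∀ y, some y ∈ K → y ∉ B → par y ∈ K ∨ up y ∈ G
  t1 : ∀ y, dn y ∈ G → par y ∈ K
  t2 : ∀ y, up y ∈ G → some y ∈ K
  disj : ∀ d₁ ∈ G, ∀ d₂ ∈ G, ∀ y, d₁.Br y → d₂.Br y → d₁ = d₂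

lemma St.comp_finite {v₀ : Option Ed} {B : Finset Ed} {K : Set (Option Ed)}
    (h : St v₀ B ∅ K) : (comp ends B v₀).Finite := by
  apply h.fin.subset
  intro w hw
  change Relation.ReflTransGen (Step ends B) v₀ w at hw
  induction hw with
  | refl => exact h.root
  | tail _ hs ih =>
    obtain ⟨x, hxB, hx⟩ := hs
    unfold ends at hx
    rw [Sym2.eq_iff] at hx
    rcases hx with ⟨h1, h2⟩ | ⟨h1, h2⟩
    · rw [← h1] at ih
      rw [← h2]
      rcases h.c2 x ih hxB with h3 | h3
      · exact h3
      · exact absurd h3 (notMem_empty _)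
    · rw [← h2] at ih
      rw [← h1]
      rcases h.c1 x ih hxB with h3 | h3
      · exact h3
      · exact absurd h3 (notMem_empty _)

lemma St.advance {v₀ : Option Ed} {B : Finset Ed} {G : Finset Dart} {K : Set (Option Ed)}
    (h : St v₀ B G K) (d : Dart) (hd : d ∈ G) :
    St v₀ B (G.erase d ∪ d.succ) (insert d.head K) where
  root := Or.inr h.root
  fin := h.fin.insert _
  c1 := by
    intro y hy hyB
    rcases hy with hy | hy
    · cases d with
      | dn x => exact Or.inr (mem_union_right _ (succ_dn hy))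
      | up x =>
        by_cases hyx : y = x
        · subst hyx
          exact Or.inl (Or.inr (h.t2 _ hd))
        · exact Or.inr (mem_union_right _ (succ_up_dn hy hyx))
    · rcases h.c1 y hy hyB with h1 | h1
      · exact Or.inl (Or.inr h1)
      · by_cases hyd : dn y = d
        · subst hyd
          exact Or.inl (Or.inl rfl)
        · exact Or.inr (mem_union_left _ (mem_erase.mpr ⟨hyd, h1⟩))
  c2 := by
    intro y hy hyB
    rcases hy with hy | hy
    · cases d with
      | dn x =>
        have : y = x := by simpa [head] using hy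
        subst this
        exact Or.inl (Or.inr (h.t1 _ hd))
      | up x => exact Or.inr (mem_union_right _ (succ_up_up hy.symm))
    · rcases h.c2 y hy hyB with h1 | h1
      · exact Or.inl (Or.inr h1)
      · by_cases hyd : up y = d
        · subst hyd
          exact Or.inl (Or.inl rfl)
        · exact Or.inr (mem_union_left _ (mem_erase.mpr ⟨hyd, h1⟩))
  t1 := by
    intro y hy
    rw [mem_union, mem_erase] at hy
    rcases hy with hy | hy
    · exact Or.inr (h.t1 y hy.2)
    · exact Or.inl (tail_dn hy)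
  t2 := by
    intro y hy
    rw [mem_union, mem_erase] at hy
    rcases hy with hy | hy
    · exact Or.inr (h.t2 y hy.2)
    · exact Or.inl (tail_up hy)
  disj := by
    intro d₁ h₁ d₂ h₂ y hy₁ hy₂
    rw [mem_union, mem_erase] at h₁ h₂
    rcases h₁ with h₁ | h₁ <;> rcases h₂ with h₂ | h₂
    · exact h.disj d₁ h₁.2 d₂ h₂.2 y hy₁ hy₂
    · exact absurd (h.disj d₁ h₁.2 d hd y hy₁ (succ_br d d₂ h₂ y hy₂).1) h₁.1
    · exact absurd (h.disj d₂ h₂.2 d hd y hy₂ (succ_br d d₁ h₁ y hy₁).1) h₂.1
    · exact succ_disj d d₁ d₂ h₁ h₂ y hy₁ hy₂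

lemma adv_count (M : Finset Ed) (G : Finset Dart) (d : Dart) (hd : d ∈ G) (hM : d.edge ∈ M)
    (hdisj : ∀ d₁ ∈ G, ∀ d₂ ∈ G, ∀ y, d₁.Br y → d₂.Br y → d₁ = d₂) :
    ∃ t, (G.erase d ∪ d.succ).card ≤ G.card + 3 * t ∧
      ∑ d' ∈ G.erase d ∪ d.succ, d'.dan M + 7 * t ≤ ∑ d' ∈ G, d'.dan M ∧
      ∑ d' ∈ G.erase d ∪ d.succ, d'.num M < ∑ d' ∈ G, d'.num M := by
  have h1 := sum_succ_num M d hM
  have hU : ∀ f : Dart → ℕ, ∑ d' ∈ G.erase d ∪ d.succ, f d' ≤
      ∑ d' ∈ G.erase d, f d' + ∑ d' ∈ d.succ, f d' := fun f => by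
    have := Finset.sum_union_inter (s₁ := G.erase d) (s₂ := d.succ) (f := f)
    omega
  have hE : ∀ f : Dart → ℕ, ∑ d' ∈ G.erase d, f d' + f d = ∑ d' ∈ G, f d' := fun f =>
    Finset.sum_erase_add G f hd
  have hc := card_union_le (G.erase d) d.succ
  rw [card_erase_of_mem hd] at hc
  have hpos : 0 < G.card := card_pos.mpr ⟨d, hd⟩
  have hnum : ∑ d' ∈ G.erase d ∪ d.succ, d'.num M < ∑ d' ∈ G, d'.num M := by
    have h2 := hU (fun d' => d'.num M)
    have h3 := hE (fun d' => d'.num M)
    omega
  have hsplit : ∑ d' ∈ d.succ, d'.dan M = ∑ d' ∈ d.succ, d'.off + ∑ d' ∈ d.succ, d'.num M := by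
    unfold dan
    exact sum_add_distrib
  have h4 := hU (fun d' => d'.dan M)
  have h5 := hE (fun d' => d'.dan M)
  have h6 : d.dan M = d.off + d.num M := rfl
  rcases Nat.lt_or_ge d.off 6 with ho | ho
  · obtain ⟨hc1, hc2⟩ := succ_small d ho
    refine ⟨0, by omega, ?_, hnum⟩
    have h7 : ∑ d' ∈ d.succ, d'.off ≤ d.off + 1 := by
      rw [sum_congr rfl hc2, sum_const, smul_eq_mul]
      nlinarith
    omega
  · have ho' : d.off = 6 := le_antisymm (off_le d) ho
    obtain ⟨hc1, hc2⟩ := succ_big d ho'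
    refine ⟨1, by omega, ?_, hnum⟩
    have h7 : ∑ d' ∈ d.succ, d'.off = 0 := by
      rw [sum_congr rfl hc2, sum_const_zero]
    omega

lemma normalize (v₀ : Option Ed) (M B : Finset Ed) (m : ℕ) :
    ∀ (G : Finset Dart) (K : Set (Option Ed)), St v₀ B G K → ∑ d ∈ G, d.num M ≤ m →
      ∃ G' K' t, St v₀ B G' K' ∧ (∀ d ∈ G', d.edge ∉ M) ∧ G'.card ≤ G.card + 3 * t ∧
        ∑ d ∈ G', d.dan M + 7 * t ≤ ∑ d ∈ G, d.dan M := by
  induction m with
  | zero =>
    intro G K hSt hm
    refine ⟨G, K, 0, hSt, ?_, by omega, by omega⟩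
    intro d hd hdM
    have h1 : d.num M ≤ ∑ d ∈ G, d.num M := single_le_sum (f := fun d => d.num M)
      (fun _ _ => Nat.zero_le _) hd
    have h2 := sum_succ_num M d hdM
    omega
  | succ m ih =>
    intro G K hSt hm
    by_cases hall : ∀ d ∈ G, d.edge ∉ M
    · exact ⟨G, K, 0, hSt, hall, by omega, by omega⟩
    · push Not at hall
      obtain ⟨d, hd, hdM⟩ := hall
      obtain ⟨t₁, ha, hb, hc⟩ := adv_count M G d hd hdM hSt.disj
      obtain ⟨G', K', t₂, h1, h2, h3, h4⟩ := ih _ _ (hSt.advance d hd) (by omega)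
      exact ⟨G', K', t₁ + t₂, h1, h2, by omega, by omega⟩

/-- Removal of darts whose edges are claimed by Breaker. -/
lemma St.remove {v₀ : Option Ed} {B B' : Finset Ed} {G G' : Finset Dart} {K : Set (Option Ed)}
    (h : St v₀ B G K) (hBB : B ⊆ B') (hGG : G' ⊆ G) (hr : ∀ d ∈ G, d ∉ G' → d.edge ∈ B') :
    St v₀ B' G' K where
  root := h.root
  fin := h.fin
  c1 := by
    intro y hy hyB
    rcases h.c1 y hy (fun h' => hyB (hBB h')) with h1 | h1
    · exact Or.inl h1
    · by_contra hcon
      push Not at hcon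
      exact hyB (hr _ h1 hcon.2)
  c2 := by
    intro y hy hyB
    rcases h.c2 y hy (fun h' => hyB (hBB h')) with h1 | h1
    · exact Or.inl h1
    · by_contra hcon
      push Not at hcon
      exact hyB (hr _ h1 hcon.2)
  t1 := fun y hy => h.t1 y (hGG hy)
  t2 := fun y hy => h.t2 y (hGG hy)
  disj := fun d₁ h₁ d₂ h₂ => h.disj d₁ (hGG h₁) d₂ (hGG h₂)

lemma exists_extension (S C : Finset Ed) (q : ℕ) (hS : S.card ≤ q) (hSC : Disjoint S C) :
    ∃ Y : Finset Ed, S ⊆ Y ∧ Y.card = q ∧ Disjoint Y C := by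
  have hinf : (((C ∪ S : Finset Ed) : Set Ed)ᶜ).Infinite := (C ∪ S).finite_toSet.infinite_compl
  obtain ⟨T, hT, hTc⟩ := hinf.exists_subset_card_eq (q - S.card)
  have hTS : Disjoint S T := by
    rw [disjoint_left]
    intro y hyS hyT
    have := hT hyT
    simp only [Set.mem_compl_iff, mem_coe, mem_union] at this
    exact this (Or.inr hyS)
  refine ⟨S ∪ T, subset_union_left, ?_, ?_⟩
  · rw [card_union_of_disjoint hTS, hTc]
    omega
  · rw [disjoint_union_left]
    refine ⟨hSC, ?_⟩
    rw [disjoint_left]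
    intro y hyT hyC
    have := hT hyT
    simp only [Set.mem_compl_iff, mem_coe, mem_union] at this
    exact this (Or.inl hyC)

/-- The two most dangerous darts. -/
lemma two_largest (G : Finset Dart) (f : Dart → ℕ) (k : ℕ) (hk : G.card ≤ k + 2) :
    ∃ D ⊆ G, D.card ≤ 2 ∧ (G \ D).card ≤ k ∧
      ∃ μ, ∑ d ∈ G \ D, f d ≤ k * μ ∧ ∑ d ∈ G \ D, f d + 2 * μ ≤ ∑ d ∈ G, f d := by
  by_cases h2 : G.card ≤ 2
  · refine ⟨G, Subset.rfl, h2, by simp, 0, by simp, by simp⟩
  · push Not at h2
    have hne : G.Nonempty := card_pos.mp (by omega)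
    obtain ⟨a, ha, hamax⟩ := exists_max_image G f hne
    have hne2 : (G.erase a).Nonempty := card_pos.mp (by rw [card_erase_of_mem ha]; omega)
    obtain ⟨b, hb, hbmax⟩ := exists_max_image (G.erase a) f hne2
    have hab : b ≠ a := (mem_erase.mp hb).1
    have hbG : b ∈ G := (mem_erase.mp hb).2
    have hsub : ({a, b} : Finset Dart) ⊆ G := by
      intro d hd
      simp only [mem_insert, mem_singleton] at hd
      rcases hd with rfl | rfl
      · exact ha
      · exact hbG
    have hcard : ({a, b} : Finset Dart).card = 2 := card_pair hab.symm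
    have hR : (G \ {a, b}).card ≤ k := by
      rw [card_sdiff_of_subset hsub, hcard]
      omega
    refine ⟨{a, b}, hsub, hcard.le, hR, f b, ?_, ?_⟩
    · calc ∑ d ∈ G \ {a, b}, f d ≤ (G \ {a, b}).card • f b := by
            apply sum_le_card_nsmul
            intro d hd
            simp only [mem_sdiff, mem_insert, mem_singleton, not_or] at hd
            exact hbmax d (mem_erase.mpr ⟨hd.2.1, hd.1⟩)
        _ = (G \ {a, b}).card * f b := smul_eq_mul _ _
        _ ≤ k * f b := Nat.mul_le_mul_right _ hR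
    · have h1 := sum_sdiff (f := f) hsub
      rw [sum_pair hab.symm] at h1
      have h3 := hamax b hbG
      omega

/-- A position in which there are at most `k` darts of total danger at most `s`. -/
def Pos (v₀ : Option Ed) (k s : ℕ) (M B : Finset Ed) : Prop :=
  ∃ G K, St v₀ B G K ∧ G.card ≤ k ∧ ∑ d ∈ G, d.dan M ≤ s

lemma Pos.mono {v₀ : Option Ed} {k k' s s' : ℕ} {M B : Finset Ed} (h : Pos v₀ k s M B)
    (hk : k ≤ k') (hs : s ≤ s') : Pos v₀ k' s' M B := by
  obtain ⟨G, K, h1, h2, h3⟩ := h
  exact ⟨G, K, h1, h2.trans hk, h3.trans hs⟩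

lemma round (v₀ : Option Ed) (k s : ℕ) (M B : Finset Ed) (h : Pos v₀ k s M B) (X : Finset Ed)
    (hX : X.card = 6) :
    ∃ Y : Finset Ed, Y.card = 2 ∧ Disjoint Y (M ∪ X ∪ B) ∧
      ∃ t μ σ, Pos v₀ (k + 3 * t - 2) σ (M ∪ X) (B ∪ Y) ∧ σ ≤ (k + 3 * t - 2) * μ ∧
        σ + 2 * μ + 7 * t ≤ s + 6 := by
  obtain ⟨G, K, hSt, hk, hs⟩ := h
  obtain ⟨G₁, K₁, t, hSt₁, hM₁, hk₁, hs₁⟩ :=
    normalize v₀ (M ∪ X) B (∑ d ∈ G, d.num (M ∪ X)) G K hSt le_rfl
  have hs2 : ∑ d ∈ G, d.dan (M ∪ X) ≤ s + 6 := by
    have h1 : ∑ d ∈ G, d.dan (M ∪ X) ≤ ∑ d ∈ G, d.dan M + ∑ d ∈ G, d.num X := by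
      rw [← sum_add_distrib]
      apply sum_le_sum
      intro d _
      have := num_union M X d
      unfold dan
      omega
    have h2 := sum_num_le X G hSt.disj X (fun _ _ y hy _ => hy)
    omega
  -- drop the darts with edges in `B`
  set G₂ := G₁.filter (fun d => d.edge ∉ B) with hG₂
  have hSt₂ : St v₀ B G₂ K₁ := hSt₁.remove Subset.rfl (filter_subset _ _) (by
    intro d hd hd'
    by_contra hcon
    exact hd' (mem_filter.mpr ⟨hd, hcon⟩))
  have hk₂ : G₂.card ≤ (k + 3 * t - 2) + 2 := by
    have := card_le_card (filter_subset (fun d => d.edge ∉ B) G₁)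
    rw [← hG₂] at this
    omega
  have hs₂ : ∑ d ∈ G₂, d.dan (M ∪ X) ≤ ∑ d ∈ G₁, d.dan (M ∪ X) :=
    sum_le_sum_of_subset (filter_subset _ _)
  obtain ⟨D, hDG, hD2, hDk, μ, hμ1, hμ2⟩ := two_largest G₂ (fun d => d.dan (M ∪ X)) _ hk₂
  obtain ⟨Y, hDY, hYc, hYd⟩ := exists_extension (D.image Dart.edge) (M ∪ X ∪ B) 2
    (card_image_le.trans hD2) (by
      rw [disjoint_left]
      intro y hy hy'
      rw [mem_image] at hy
      obtain ⟨d, hd, rfl⟩ := hy
      have h1 := hDG hd
      rw [hG₂, mem_filter] at h1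
      rw [mem_union] at hy'
      rcases hy' with hy' | hy'
      · exact hM₁ d h1.1 hy'
      · exact h1.2 hy')
  refine ⟨Y, hYc, hYd, t, μ, ∑ d ∈ G₂ \ D, d.dan (M ∪ X), ⟨G₂ \ D, K₁, ?_, hDk, le_rfl⟩, hμ1, ?_⟩
  · apply hSt₂.remove subset_union_left sdiff_subset
    intro d hd hd'
    have hdD : d ∈ D := by
      by_contra hcon
      exact hd' (mem_sdiff.mpr ⟨hd, hcon⟩)
    exact mem_union_right _ (hDY (mem_image_of_mem _ hdD))
  · omega

lemma turn' (v₀ : Option Ed) (M B : Finset Ed)
    (h : ∀ X : Finset Ed, X.card = 6 → ∃ Y : Finset Ed, Y.card = 2 ∧ Disjoint Y (M ∪ X ∪ B) ∧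
      BreakerWins ends 6 2 v₀ (M ∪ X) (B ∪ Y)) : BreakerWins ends 6 2 v₀ M B := by
  classical
  choose! f hf1 hf2 hf3 using h
  exact BreakerWins.turn M B f (fun X hX _ => ⟨hf1 X hX, hf2 X hX⟩) (fun X hX _ => hf3 X hX)

lemma win_zero (v₀ : Option Ed) (s : ℕ) (M B : Finset Ed) (h : Pos v₀ 0 s M B) :
    BreakerWins ends 6 2 v₀ M B := by
  obtain ⟨G, K, h1, h2, _⟩ := h
  have : G = ∅ := card_eq_zero.mp (Nat.le_zero.mp h2)
  subst this
  exact BreakerWins.finite M B h1.comp_finite

lemma win_of_round (v₀ : Option Ed) (k s : ℕ) (M B : Finset Ed) (h : Pos v₀ k s M B)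
    (hw : ∀ t μ σ, σ ≤ (k + 3 * t - 2) * μ → σ + 2 * μ + 7 * t ≤ s + 6 → ∀ M' B',
      Pos v₀ (k + 3 * t - 2) σ M' B' → BreakerWins ends 6 2 v₀ M' B') :
    BreakerWins ends 6 2 v₀ M B := by
  apply turn'
  intro X hX
  obtain ⟨Y, h1, h2, t, μ, σ, h3, h4, h5⟩ := round v₀ k s M B h X hX
  exact ⟨Y, h1, h2, hw t μ σ h4 h5 _ _ h3⟩

lemma win20 (v₀ : Option Ed) (M B : Finset Ed) (h : Pos v₀ 2 0 M B) :
    BreakerWins ends 6 2 v₀ M B := by
  apply win_of_round v₀ 2 0 M B h
  intro t μ σ h1 h2 M' B' h3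
  obtain rfl : t = 0 := by omega
  exact win_zero v₀ σ M' B' h3

lemma win13 (v₀ : Option Ed) (M B : Finset Ed) (h : Pos v₀ 1 3 M B) :
    BreakerWins ends 6 2 v₀ M B := by
  apply win_of_round v₀ 1 3 M B h
  intro t μ σ h1 h2 M' B' h3
  have ht : t = 0 ∨ t = 1 := by omega
  rcases ht with rfl | rfl
  · exact win_zero v₀ σ M' B' h3
  · exact win20 v₀ M' B' (h3.mono (by omega) (by omega))

lemma win30 (v₀ : Option Ed) (M B : Finset Ed) (h : Pos v₀ 3 0 M B) :
    BreakerWins ends 6 2 v₀ M B := by
  apply win_of_round v₀ 3 0 M B h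
  intro t μ σ h1 h2 M' B' h3
  obtain rfl : t = 0 := by omega
  exact win13 v₀ M' B' (h3.mono (by omega) (by omega))

lemma win22 (v₀ : Option Ed) (M B : Finset Ed) (h : Pos v₀ 2 2 M B) :
    BreakerWins ends 6 2 v₀ M B := by
  apply win_of_round v₀ 2 2 M B h
  intro t μ σ h1 h2 M' B' h3
  have ht : t = 0 ∨ t = 1 := by omega
  rcases ht with rfl | rfl
  · exact win_zero v₀ σ M' B' h3
  · exact win30 v₀ M' B' (h3.mono (by omega) (by omega))

lemma win40 (v₀ : Option Ed) (M B : Finset Ed) (h : Pos v₀ 4 0 M B) :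
    BreakerWins ends 6 2 v₀ M B := by
  apply win_of_round v₀ 4 0 M B h
  intro t μ σ h1 h2 M' B' h3
  obtain rfl : t = 0 := by omega
  exact win22 v₀ M' B' (h3.mono (by omega) (by omega))

lemma win33 (v₀ : Option Ed) (M B : Finset Ed) (h : Pos v₀ 3 3 M B) :
    BreakerWins ends 6 2 v₀ M B := by
  apply win_of_round v₀ 3 3 M B h
  intro t μ σ h1 h2 M' B' h3
  have ht : t = 0 ∨ t = 1 := by omega
  rcases ht with rfl | rfl
  · exact win13 v₀ M' B' (h3.mono (by omega) (by omega))
  · exact win40 v₀ M' B' (h3.mono (by omega) (by omega))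

lemma win50 (v₀ : Option Ed) (M B : Finset Ed) (h : Pos v₀ 5 0 M B) :
    BreakerWins ends 6 2 v₀ M B := by
  apply win_of_round v₀ 5 0 M B h
  intro t μ σ h1 h2 M' B' h3
  obtain rfl : t = 0 := by omega
  exact win33 v₀ M' B' (h3.mono (by omega) (by omega))

lemma win27 (v₀ : Option Ed) (M B : Finset Ed) (h : Pos v₀ 2 7 M B) :
    BreakerWins ends 6 2 v₀ M B := by
  apply win_of_round v₀ 2 7 M B h
  intro t μ σ h1 h2 M' B' h3
  have ht : t = 0 ∨ t = 1 := by omega
  rcases ht with rfl | rfl
  · exact win_zero v₀ σ M' B' h3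
  · exact win33 v₀ M' B' (h3.mono (by omega) (by omega))

/-- Breaker wins from every root. -/
theorem breaker_wins (v₀ : Option Ed) : BreakerWins ends 6 2 v₀ ∅ ∅ := by
  have hnum : ∀ d : Dart, d.dan ∅ = d.off := by
    intro d
    simp [dan, num]
  cases v₀ with
  | none =>
    apply win20
    refine ⟨{dn ([], 6)}, {none}, ?_, by simp, ?_⟩
    · refine ⟨rfl, Set.finite_singleton _, ?_, ?_, ?_, ?_, ?_⟩
      · intro y hy _
        right
        have hy' : par y = none := hy
        obtain ⟨v, j⟩ := y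
        by_cases hj : j.val < 6
        · rw [par_lt v j hj] at hy'
          exact absurd hy' (by simp)
        · obtain rfl := fin_six hj
          cases v with
          | nil => exact mem_singleton_self _
          | cons i w => rw [par_cons] at hy'; exact absurd hy' (by simp)
      · intro y hy
        exact absurd hy (by simp)
      · intro y hy
        rw [mem_singleton, dn.injEq] at hy
        subst hy
        exact par_nil
      · intro y hy
        exact absurd hy (by simp)
      · intro d₁ h₁ d₂ h₂ _ _ _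
        rw [mem_singleton] at h₁ h₂
        rw [h₁, h₂]
    · rw [sum_singleton, hnum]
      rfl
  | some x =>
    have hSt : St (some x) ∅ (insert (up x) (dn x).succ) {some x} := by
      refine ⟨rfl, Set.finite_singleton _, ?_, ?_, ?_, ?_, ?_⟩
      · intro y hy _
        exact Or.inr (mem_insert_of_mem (succ_dn hy))
      · intro y hy _
        have : y = x := by simpa using hy
        subst this
        exact Or.inr (mem_insert_self _ _)
      · intro y hy
        rw [mem_insert] at hy
        rcases hy with hy | hy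
        · exact absurd hy (by simp)
        · exact tail_dn hy
      · intro y hy
        rw [mem_insert] at hy
        rcases hy with hy | hy
        · rw [up.injEq] at hy
          subst hy
          rfl
        · exact tail_up hy
      · have key : ∀ d ∈ (dn x).succ, ∀ y, (up x).Br y → d.Br y → False := by
          intro d hd y h1 h2
          have h3 := succ_br (dn x) d hd y h2
          rcases h1 with h1 | h1
          · exact h1 h3.1
          · exact h3.2 h1
        intro d₁ h₁ d₂ h₂ y hy₁ hy₂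
        rw [mem_insert] at h₁ h₂
        rcases h₁ with rfl | h₁ <;> rcases h₂ with rfl | h₂
        · rfl
        · exact (key d₂ h₂ y hy₁ hy₂).elim
        · exact (key d₁ h₁ y hy₂ hy₁).elim
        · exact succ_disj (dn x) d₁ d₂ h₁ h₂ y hy₁ hy₂
    have hc := card_insert_le (up x) (dn x).succ
    have hsum : ∑ d ∈ insert (up x) (dn x).succ, d.dan ∅ ≤ (up x).off + ∑ d ∈ (dn x).succ, d.off := by
      calc ∑ d ∈ insert (up x) (dn x).succ, d.dan ∅ = ∑ d ∈ insert (up x) (dn x).succ, d.off :=
            sum_congr rfl (fun d _ => hnum d)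
        _ ≤ (up x).off + ∑ d ∈ (dn x).succ, d.off := by
            by_cases hmem : up x ∈ (dn x).succ
            · rw [insert_eq_of_mem hmem]; omega
            · rw [sum_insert hmem]
    by_cases hx : x.2.val = 0
    · apply win50
      obtain ⟨h1, h2⟩ := succ_big (dn x) (by simp [off, hx])
      refine ⟨_, _, hSt, by omega, hsum.trans ?_⟩
      rw [sum_congr rfl h2, sum_const_zero]
      simp [off, hx]
    · apply win27
      have hx7 := x.2.2
      obtain ⟨h1, h2⟩ := succ_small (dn x) (by simp only [off]; omega)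
      refine ⟨_, _, hSt, by omega, hsum.trans ?_⟩
      rw [sum_congr rfl h2, sum_const, smul_eq_mul]
      simp only [off]
      have h3 : (dn x).succ.card * (6 - x.2.val + 1) ≤ 1 * (6 - x.2.val + 1) :=
        Nat.mul_le_mul_right _ h1
      omega

end Pool.Agent.Q175.PG
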