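import Pool.Agent.Q175.PG.Breaker

/-!
# Percolation games: Maker survives with a head start
-/

namespace Pool.Agent.Q175.PG

open Finset

/-- A step along an edge with the property `P`. -/
def StepP (P : Ed → Prop) (a b : Option Ed) : Prop := ∃ x, P x ∧ ends x = s(a, b)

/-- Connectedness to the root through edges with the property `P`. -/
def Conn (v₀ : Option Ed) (P : Ed → Prop) (a : Option Ed) : Prop :=
  Relation.ReflTransGen (StepP P) v₀ a

lemma Conn.mono {v₀ : Option Ed} {P Q : Ed → Prop} (h : ∀ x, P x → Q x) {a : Option Ed}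
    (ha : Conn v₀ P a) : Conn v₀ Q a := by
  have hPQ : StepP P ≤ StepP Q := fun _ _ ⟨x, hx, h'⟩ => ⟨x, h x hx, h'⟩
  exact Relation.ReflTransGen.mono hPQ _ _ ha

lemma Conn.edge {v₀ : Option Ed} {P : Ed → Prop} {x : Ed} (h : Conn v₀ P (par x)) (hx : P x) :
    Conn v₀ P (some x) :=
  h.tail ⟨x, hx, Sym2.eq_swap⟩

lemma Conn.down {v₀ : Option Ed} {P : Ed → Prop} (v : List (Fin 4)) (n : ℕ) :
    ∀ j : Fin 7, j.val = n → Conn v₀ P (par (v, j)) → (∀ k, k ≤ j → P (v, k)) →
      Conn v₀ P (some (v, 0)) := by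
  induction n with
  | zero =>
    intro j hj h hP
    obtain rfl : j = 0 := Fin.ext hj
    exact h.edge (hP 0 le_rfl)
  | succ n ih =>
    intro j hj h hP
    have h1 := h.edge (hP j le_rfl)
    have hn : n < 7 := by have := j.2; omega
    refine ih ⟨n, hn⟩ rfl ?_ (fun k hk => hP k (hk.trans ?_))
    · have h2 : par (v, ⟨n, hn⟩) = some (v, j) := by
        rw [par_lt v ⟨n, hn⟩ (by have := j.2; show n < 6; omega)]
        congr 2
        exact Fin.ext hj.symm
      rw [h2]
      exact h1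
    · rw [Fin.le_def]
      show n ≤ j.val
      omega

/-- Good edges: the upper end is connected to the root by edges of Maker, and Breaker has claimed
no edge below. -/
def Good (v₀ : Option Ed) (M B : Finset Ed) (y : Ed) : Prop :=
  Conn v₀ (· ∈ M) (par y) ∧ ∀ z, Desc y z → z ∉ B

/-- The state of the game from the point of view of Maker: `a` near good edges, `b` good edges. -/
def Sta (v₀ : Option Ed) (M B : Finset Ed) (a b : ℕ) : Prop :=
  ∃ G : Finset Ed, (∀ y ∈ G, Good v₀ M B y) ∧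
    (∀ y₁ ∈ G, ∀ y₂ ∈ G, ∀ z, Desc y₁ z → Desc y₂ z → y₁ = y₂) ∧
    a ≤ (G.filter (fun y => y.2.val ≤ 5)).card ∧ b ≤ G.card

lemma Sta.reply {v₀ : Option Ed} {M B : Finset Ed} {a b : ℕ} (h : Sta v₀ M B a b) (Y : Finset Ed)
    (hY : Y.card = 2) : Sta v₀ M (B ∪ Y) (a - 2) (b - 2) := by
  obtain ⟨G, h1, h2, h3, h4⟩ := h
  have key : ∀ H ⊆ G, (H.filter (fun y => ∃ z ∈ Y, Desc y z)).card ≤ 2 := by
    intro H hH
    rw [← hY]
    have hex : ∀ y ∈ H.filter (fun y => ∃ z ∈ Y, Desc y z), ∃ z, z ∈ Y ∧ Desc y z := by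
      intro y hy
      exact (mem_filter.mp hy).2
    classical
    choose! f hf using hex
    apply card_le_card_of_injOn f
    · intro y hy
      exact (hf y hy).1
    · intro y hy y' hy' heq
      have e1 := (hf y hy).2
      have e2 := (hf y' hy').2
      rw [heq] at e1
      exact h2 y (hH (mem_filter.mp hy).1) y' (hH (mem_filter.mp hy').1) _ e1 e2
  have hsplit : ∀ H : Finset Ed, (H.filter (fun y => ¬ ∃ z ∈ Y, Desc y z)).card +
      (H.filter (fun y => ∃ z ∈ Y, Desc y z)).card = H.card := by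
    intro H
    rw [add_comm]
    exact card_filter_add_card_filter_not (s := H) (fun y => ∃ z ∈ Y, Desc y z)
  refine ⟨G.filter (fun y => ¬ ∃ z ∈ Y, Desc y z), ?_, ?_, ?_, ?_⟩
  · intro y hy
    rw [mem_filter] at hy
    refine ⟨(h1 y hy.1).1, ?_⟩
    intro z hz hzB
    rw [mem_union] at hzB
    rcases hzB with hzB | hzB
    · exact (h1 y hy.1).2 z hz hzB
    · exact hy.2 ⟨z, hzB, hz⟩
  · intro y₁ hy₁ y₂ hy₂
    exact h2 y₁ (mem_filter.mp hy₁).1 y₂ (mem_filter.mp hy₂).1
  · rw [filter_filter]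
    have e1 := key (G.filter (fun y => y.2.val ≤ 5)) (filter_subset _ _)
    have e2 := hsplit (G.filter (fun y => y.2.val ≤ 5))
    rw [filter_filter] at e2
    have e3 : G.filter (fun y => (¬ ∃ z ∈ Y, Desc y z) ∧ y.2.val ≤ 5) =
        G.filter (fun y => y.2.val ≤ 5 ∧ ¬ ∃ z ∈ Y, Desc y z) := by
      apply filter_congr
      intro y _
      exact and_comm
    rw [e3]
    omega
  · have e1 := key G Subset.rfl
    have e2 := hsplit G
    omega

lemma Good.mono {v₀ : Option Ed} {M M' B : Finset Ed} (h : M ⊆ M') {y : Ed} (hy : Good v₀ M B y) :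
    Good v₀ M' B y :=
  ⟨hy.1.mono (fun _ hx => h hx), hy.2⟩

lemma legal_ext (S M B : Finset Ed) (hS : S.card ≤ 6) (hB : Disjoint S B) :
    ∃ X : Finset Ed, X.card = 6 ∧ Disjoint X (M ∪ B) ∧ S ⊆ M ∪ X := by
  obtain ⟨X, h1, h2, h3⟩ := exists_extension (S \ M) (M ∪ B) 6
    ((card_le_card sdiff_subset).trans hS) (by
      rw [disjoint_union_right]
      exact ⟨sdiff_disjoint, Disjoint.mono_left sdiff_subset hB⟩)
  refine ⟨X, h2, h3, ?_⟩
  intro y hy
  rw [mem_union]
  by_cases hM : y ∈ M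
  · exact Or.inl hM
  · exact Or.inr (h1 (mem_sdiff.mpr ⟨hy, hM⟩))

/-- Maker claims the first edges of six branches. -/
lemma first_move {v₀ : Option Ed} {M B : Finset Ed} (h : Sta v₀ M B 0 6) :
    ∃ X : Finset Ed, X.card = 6 ∧ Disjoint X (M ∪ B) ∧ Sta v₀ (M ∪ X) B 6 6 := by
  obtain ⟨G₀, h1, h2, _, h4⟩ := h
  obtain ⟨G, hG, hGc⟩ := exists_subset_card_eq h4
  have hb : ∀ y ∈ G, y ∉ B := fun y hy => (h1 y (hG hy)).2 y (desc_refl y)
  obtain ⟨X, hX1, hX2, hX3⟩ := legal_ext G M B hGc.le (disjoint_left.mpr hb)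
  refine ⟨X, hX1, hX2, ?_⟩
  set φ : Ed → Ed := fun y => if y.2.val = 6 then (y.1, 5) else y with hφ
  have hdesc : ∀ y z, Desc (φ y) z → Desc y z := by
    intro y z hz
    simp only [hφ] at hz
    split_ifs at hz with h6
    · obtain ⟨v, j⟩ := y
      exact (desc_step v j (by simp only at h6; omega) z).mpr (Or.inr (by
        have : (⟨j.val - 1, by omega⟩ : Fin 7) = 5 := by
          apply Fin.ext
          simp only at h6
          show j.val - 1 = 5
          omega
        rw [this]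
        exact hz))
    · exact hz
  have hinj : Set.InjOn φ G := by
    intro y₁ hy₁ y₂ hy₂ heq
    apply h2 y₁ (hG hy₁) y₂ (hG hy₂) (φ y₁) (hdesc y₁ _ (desc_refl _))
    rw [heq]
    exact hdesc y₂ _ (desc_refl _)
  have hnear : ∀ y, (φ y).2.val ≤ 5 := by
    intro y
    simp only [hφ]
    split_ifs with h6
    · exact le_rfl
    · have := y.2.2
      omega
  refine ⟨G.image φ, ?_, ?_, ?_, ?_⟩
  · intro y' hy'
    rw [mem_image] at hy'
    obtain ⟨y, hy, rfl⟩ := hy'
    have hg := (h1 y (hG hy)).mono (subset_union_left (s₂ := X))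
    refine ⟨?_, fun z hz => hg.2 z (hdesc y z hz)⟩
    simp only [hφ]
    split_ifs with h6
    · have h7 : par (y.1, 5) = some y := by
        rw [par_lt y.1 5 (by decide)]
        congr 1
        exact Prod.ext rfl (Fin.ext h6.symm)
      rw [h7]
      exact hg.1.edge (hX3 hy)
    · exact hg.1
  · intro y₁' hy₁ y₂' hy₂ z hz₁ hz₂
    rw [mem_image] at hy₁ hy₂
    obtain ⟨y₁, hy₁, rfl⟩ := hy₁
    obtain ⟨y₂, hy₂, rfl⟩ := hy₂
    rw [h2 y₁ (hG hy₁) y₂ (hG hy₂) z (hdesc y₁ z hz₁) (hdesc y₂ z hz₂)]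
  · rw [filter_true_of_mem (by
      intro y' hy'
      rw [mem_image] at hy'
      obtain ⟨y, _, rfl⟩ := hy'
      exact hnear y), card_image_of_injOn hinj, hGc]
  · rw [card_image_of_injOn hinj, hGc]

/-- Maker claims all the edges up to the next branching vertex. -/
lemma cross_move {v₀ : Option Ed} {M B : Finset Ed} {a b : ℕ} (ha : 1 ≤ a) (h : Sta v₀ M B a b) :
    ∃ X : Finset Ed, X.card = 6 ∧ Disjoint X (M ∪ B) ∧ Sta v₀ (M ∪ X) B (a - 1) (b + 3) := by
  obtain ⟨G, h1, h2, h3, h4⟩ := h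
  obtain ⟨y, hy⟩ : (G.filter (fun y => y.2.val ≤ 5)).Nonempty := card_pos.mp (by omega)
  rw [mem_filter] at hy
  obtain ⟨hyG, hy5⟩ := hy
  obtain ⟨v, j⟩ := y
  simp only at hy5
  have hkd : ∀ k, k ≤ j → Desc (v, j) (v, k) := fun k hk => Or.inl ⟨rfl, hk⟩
  set S : Finset Ed := (Finset.univ.filter (fun k : Fin 7 => k ≤ j)).image (fun k => (v, k)) with hS
  have hSc : S.card ≤ 6 := by
    refine card_image_le.trans ?_
    have hsub : (Finset.univ.filter (fun k : Fin 7 => k ≤ j)) ⊆ Finset.univ.erase 6 := by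
      intro k hk
      rw [mem_filter] at hk
      rw [mem_erase]
      refine ⟨?_, mem_univ _⟩
      rintro rfl
      have := Fin.le_def.mp hk.2
      simp at this
      omega
    refine (card_le_card hsub).trans ?_
    rw [card_erase_of_mem (mem_univ _)]
    simp
  have hSB : Disjoint S B := by
    rw [disjoint_left]
    intro z hz hzB
    rw [hS, mem_image] at hz
    obtain ⟨k, hk, rfl⟩ := hz
    rw [mem_filter] at hk
    exact (h1 _ hyG).2 _ (hkd k hk.2) hzB
  obtain ⟨X, hX1, hX2, hX3⟩ := legal_ext S M B hSc hSB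
  refine ⟨X, hX1, hX2, ?_⟩
  have hgy := (h1 _ hyG).mono (subset_union_left (s₂ := X))
  have hv0 : Conn v₀ (· ∈ M ∪ X) (some (v, 0)) := by
    refine Conn.down v j.val j rfl hgy.1 (fun k hk => hX3 ?_)
    rw [hS, mem_image]
    exact ⟨k, mem_filter.mpr ⟨mem_univ _, hk⟩, rfl⟩
  have hdz : ∀ z, Desc (v, 0) z → Desc (v, j) z := by
    intro z hz
    rcases hz with ⟨e1, e2⟩ | e1
    · exact Or.inl ⟨e1, e2.trans (Fin.zero_le _)⟩
    · exact Or.inr e1
  set N : Finset Ed := Finset.univ.image (fun i : Fin 4 => (i :: v, (6 : Fin 7))) with hN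
  have hNc : N.card = 4 := by
    rw [hN, card_image_of_injective _ (by
      intro i i' h
      simpa using h)]
    simp
  have hNd : ∀ x ∈ N, ∀ z, Desc x z → Desc (v, j) z := by
    intro x hx z hz
    rw [hN, mem_image] at hx
    obtain ⟨i, _, rfl⟩ := hx
    exact hdz z (desc_of_cons hz)
  have hdis : ∀ x ∈ N, ∀ x' ∈ G.erase (v, j), ∀ z, Desc x z → Desc x' z → False := by
    intro x hx x' hx' z hz hz'
    rw [mem_erase] at hx'
    exact hx'.1 (h2 x' hx'.2 (v, j) hyG z hz' (hNd x hx z hz))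
  have hdisj : Disjoint (G.erase (v, j)) N := by
    rw [disjoint_left]
    intro x hx hxN
    exact hdis x hxN x hx x (desc_refl x) (desc_refl x)
  refine ⟨G.erase (v, j) ∪ N, ?_, ?_, ?_, ?_⟩
  · intro x hx
    rw [mem_union] at hx
    rcases hx with hx | hx
    · exact (h1 x (mem_erase.mp hx).2).mono subset_union_left
    · refine ⟨?_, fun z hz => hgy.2 z (hNd x hx z hz)⟩
      rw [hN, mem_image] at hx
      obtain ⟨i, _, rfl⟩ := hx
      rw [par_cons]
      exact hv0
  · intro x₁ hx₁ x₂ hx₂ z hz₁ hz₂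
    rw [mem_union] at hx₁ hx₂
    rcases hx₁ with hx₁ | hx₁ <;> rcases hx₂ with hx₂ | hx₂
    · exact h2 x₁ (mem_erase.mp hx₁).2 x₂ (mem_erase.mp hx₂).2 z hz₁ hz₂
    · exact (hdis x₂ hx₂ x₁ hx₁ z hz₂ hz₁).elim
    · exact (hdis x₁ hx₁ x₂ hx₂ z hz₁ hz₂).elim
    · rw [hN, mem_image] at hx₁ hx₂
      obtain ⟨i, _, rfl⟩ := hx₁
      obtain ⟨i', _, rfl⟩ := hx₂
      rw [desc_cons_unique v i i' z hz₁ hz₂]
  · have e1 : (G.filter (fun y => y.2.val ≤ 5)).erase (v, j) ⊆
        (G.erase (v, j) ∪ N).filter (fun y => y.2.val ≤ 5) := by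
      intro x hx
      rw [mem_erase, mem_filter] at hx
      rw [mem_filter, mem_union, mem_erase]
      exact ⟨Or.inl ⟨hx.1, hx.2.1⟩, hx.2.2⟩
    have e2 := card_le_card e1
    rw [card_erase_of_mem (mem_filter.mpr ⟨hyG, hy5⟩)] at e2
    omega
  · rw [card_union_of_disjoint hdisj, card_erase_of_mem hyG, hNc]
    have : 0 < G.card := card_pos.mpr ⟨_, hyG⟩
    omega

lemma Sta.infinite {v₀ : Option Ed} {M B : Finset Ed} {a b : ℕ} (hMB : Disjoint M B)
    (hb : 1 ≤ b) (h : Sta v₀ M B a b) : (comp ends B v₀).Infinite := by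
  obtain ⟨G, h1, _, _, h4⟩ := h
  obtain ⟨⟨v, j⟩, hy⟩ : G.Nonempty := card_pos.mp (by omega)
  obtain ⟨hc, hd⟩ := h1 _ hy
  have hc' : Conn v₀ (· ∉ B) (par (v, j)) := hc.mono (fun x hx hxB => disjoint_left.mp hMB hx hxB)
  have h0 : Conn v₀ (· ∉ B) (some (v, 0)) :=
    Conn.down v j.val j rfl hc' (fun k hk => hd _ (Or.inl ⟨rfl, hk⟩))
  have hn : ∀ n : ℕ, Conn v₀ (· ∉ B) (some (List.replicate n (0 : Fin 4) ++ v, 0)) := by
    intro n
    induction n with
    | zero => simpa using h0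
    | succ n ih =>
      have e1 : List.replicate (n + 1) (0 : Fin 4) ++ v = 0 :: (List.replicate n 0 ++ v) := by
        rw [List.replicate_succ, List.cons_append]
      rw [e1]
      refine Conn.down _ 6 6 rfl ?_ ?_
      · rw [par_cons]
        exact ih
      · intro k _
        apply hd
        right
        refine ⟨⟨0 :: List.replicate n 0, by simp⟩, ?_⟩
        intro heq
        have := congrArg List.length heq
        simp at this
        omega
  apply Set.infinite_of_injective_forall_mem (f := fun n : ℕ =>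
    (some (List.replicate n (0 : Fin 4) ++ v, 0) : Option Ed))
  · intro n m hnm
    simp only [Option.some.injEq, Prod.mk.injEq, and_true] at hnm
    have := congrArg List.length hnm
    simpa using this
  · intro n
    exact hn n

/-- The invariant of Maker. -/
def Inv (v₀ : Option Ed) (M B : Finset Ed) : Prop :=
  Disjoint M B ∧ (Sta v₀ M B 0 6 ∨ Sta v₀ M B 4 4 ∨ Sta v₀ M B 1 5)

lemma Inv.move {v₀ : Option Ed} {M B : Finset Ed} (h : Inv v₀ M B) :
    ∃ X : Finset Ed, X.card = 6 ∧ Disjoint X (M ∪ B) ∧ ∀ Y : Finset Ed, Y.card = 2 →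
      Disjoint Y (M ∪ X ∪ B) → Inv v₀ (M ∪ X) (B ∪ Y) := by
  obtain ⟨hMB, h⟩ := h
  have hdis : ∀ X Y : Finset Ed, Disjoint X (M ∪ B) → Disjoint Y (M ∪ X ∪ B) →
      Disjoint (M ∪ X) (B ∪ Y) := by
    intro X Y hX hY
    rw [disjoint_union_right] at hX hY
    rw [disjoint_union_right, disjoint_union_left]
    exact ⟨⟨hMB, hX.2⟩, hY.1.symm⟩
  rcases h with h | h | h
  · obtain ⟨X, h1, h2, h3⟩ := first_move h
    exact ⟨X, h1, h2, fun Y hY hYd => ⟨hdis X Y h2 hYd, Or.inr (Or.inl (h3.reply Y hY))⟩⟩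
  · obtain ⟨X, h1, h2, h3⟩ := cross_move (by norm_num) h
    exact ⟨X, h1, h2, fun Y hY hYd => ⟨hdis X Y h2 hYd, Or.inr (Or.inr (h3.reply Y hY))⟩⟩
  · obtain ⟨X, h1, h2, h3⟩ := cross_move (by norm_num) h
    exact ⟨X, h1, h2, fun Y hY hYd => ⟨hdis X Y h2 hYd, Or.inl (h3.reply Y hY)⟩⟩

lemma Inv.infinite {v₀ : Option Ed} {M B : Finset Ed} (h : Inv v₀ M B) :
    (comp ends B v₀).Infinite := by
  obtain ⟨hMB, h | h | h⟩ := h
  · exact h.infinite hMB (by norm_num)
  · exact h.infinite hMB (by norm_num)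
  · exact h.infinite hMB (by norm_num)

lemma not_wins {v₀ : Option Ed} {M B : Finset Ed} (h : BreakerWins ends 6 2 v₀ M B) :
    ¬ Inv v₀ M B := by
  induction h with
  | finite M B h => exact fun hI => hI.infinite h
  | turn M B Y hY _ ih =>
    intro hI
    obtain ⟨X, h1, h2, h3⟩ := hI.move
    obtain ⟨h4, h5⟩ := hY X h1 h2
    exact ih X h1 h2 (h3 (Y X) h4 h5)

/-- The head start: the seven edges between the branching vertices `([], 0)` and `([0], 0)`. -/
def start : Finset Ed := Finset.univ.image (fun j : Fin 7 => ([0], j))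

theorem maker_survives : ¬ BreakerWins ends 6 2 (some ([], 0)) start ∅ := by
  intro h
  apply not_wins h
  refine ⟨disjoint_empty_right _, Or.inl ?_⟩
  have h0 : Conn (some ([], 0)) (· ∈ start) (some ([0], 0)) := by
    refine Conn.down [0] 6 6 rfl ?_ ?_
    · rw [par_cons]
      exact Relation.ReflTransGen.refl
    · intro k _
      show (([0], k) : Ed) ∈ start
      exact mem_image_of_mem _ (mem_univ k)
  refine ⟨(({1, 2, 3} : Finset (Fin 4)).image (fun i => (([i], 6) : Ed))) ∪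
    (Finset.univ.image (fun i : Fin 4 => (([i, 0], 6) : Ed))), ?_, ?_, Nat.zero_le _, ?_⟩
  · intro y hy
    refine ⟨?_, fun z _ => notMem_empty z⟩
    rw [mem_union, mem_image, mem_image] at hy
    rcases hy with ⟨i, _, rfl⟩ | ⟨i, _, rfl⟩
    · rw [par_cons]
      exact Relation.ReflTransGen.refl
    · rw [par_cons]
      exact h0
  · have key : ∀ i ∈ ({1, 2, 3} : Finset (Fin 4)), ∀ i' : Fin 4, ∀ z,
        Desc ([i], 6) z → Desc ([i', 0], 6) z → False := by
      intro i hi i' z h1 h2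
      have h3 : Desc ([0], 6) z := by
        have h4 : Desc ([0], 0) z := desc_of_cons h2
        rcases h4 with ⟨e1, e2⟩ | e1
        · exact Or.inl ⟨e1, e2.trans (Fin.zero_le _)⟩
        · exact Or.inr e1
      have h5 := desc_cons_unique [] i 0 z h1 h3
      subst h5
      simp at hi
    intro y₁ hy₁ y₂ hy₂ z hz₁ hz₂
    rw [mem_union, mem_image, mem_image] at hy₁ hy₂
    rcases hy₁ with ⟨i, hi, rfl⟩ | ⟨i, _, rfl⟩ <;> rcases hy₂ with ⟨i', hi', rfl⟩ | ⟨i', _, rfl⟩
    · rw [desc_cons_unique [] i i' z hz₁ hz₂]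
    · exact (key i hi i' z hz₁ hz₂).elim
    · exact (key i' hi' i z hz₂ hz₁).elim
    · rw [desc_cons_unique [0] i i' z hz₁ hz₂]
  · decide

end Pool.Agent.Q175.PG
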