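import Mathlib

/-!
# Percolation games: the game and a subdivided tree
-/

namespace Pool.Agent.Q175.PG

open Finset

/-- There is an edge outside `B` between `a` and `b`. -/
def Step {V E : Type} (ends : E → Sym2 V) (B : Finset E) (a b : V) : Prop :=
  ∃ x, x ∉ B ∧ ends x = s(a, b)

/-- The component of `v` in the subgraph of all the edges outside `B`. -/
def comp {V E : Type} (ends : E → Sym2 V) (B : Finset E) (v : V) : Set V :=
  {w | Relation.ReflTransGen (Step ends B) v w}

/-- Breaker can force a win, after finitely many turns, in the `(p, q)`-percolation game on the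
multigraph `ends` (with edges in `E` and vertices in `V`) with the root `v`, from the position,
Maker to move, in which Maker has claimed the edges of `M` and Breaker those of `B`: either the
component of `v` in the graph of the edges outside `B` is finite, or there is a reply `Y X` of
Breaker (`q` unclaimed edges) to every choice `X` of `p` unclaimed edges by Maker, after which
Breaker can force a win. -/
inductive BreakerWins {V E : Type} [DecidableEq E] (ends : E → Sym2 V) (p q : ℕ) (v : V) :
    Finset E → Finset E → Prop
  | finite (M B : Finset E) (h : (comp ends B v).Finite) : BreakerWins ends p q v M B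
  | turn (M B : Finset E) (Y : Finset E → Finset E)
      (hY : ∀ X : Finset E, X.card = p → Disjoint X (M ∪ B) →
        (Y X).card = q ∧ Disjoint (Y X) (M ∪ X ∪ B))
      (h : ∀ X : Finset E, X.card = p → Disjoint X (M ∪ B) →
        BreakerWins ends p q v (M ∪ X) (B ∪ Y X)) :
      BreakerWins ends p q v M B

/-- The edges of the tree (all the vertices but the top one correspond to the edges to their
parents): `(v, 0)` are the branching vertices, `(v, j)` the vertex at the distance `j` above. -/
abbrev Ed := List (Fin 4) × Fin 7

/-- The parent. -/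
def par (x : Ed) : Option Ed :=
  if h : x.2.val < 6 then some (x.1, ⟨x.2.val + 1, by omega⟩)
  else match x.1 with
    | [] => none
    | _ :: w => some (w, 0)

/-- The tree. -/
def ends (x : Ed) : Sym2 (Option Ed) := s(some x, par x)

lemma par_lt (v : List (Fin 4)) (j : Fin 7) (h : j.val < 6) :
    par (v, j) = some (v, ⟨j.val + 1, by omega⟩) := by
  unfold par
  simp [h]

lemma par_nil : par ([], 6) = none := by
  unfold par
  simp

lemma par_cons (i : Fin 4) (w : List (Fin 4)) : par (i :: w, 6) = some (w, 0) := by
  unfold par
  simp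

/-- `y` is `x` or below `x`. -/
def Desc (x y : Ed) : Prop := (y.1 = x.1 ∧ y.2 ≤ x.2) ∨ (x.1 <:+ y.1 ∧ x.1 ≠ y.1)

instance (x y : Ed) : Decidable (Desc x y) := by
  unfold Desc
  infer_instance

lemma desc_refl (x : Ed) : Desc x x := Or.inl ⟨rfl, le_rfl⟩

lemma desc_step (v : List (Fin 4)) (j : Fin 7) (h : 0 < j.val) (y : Ed) :
    Desc (v, j) y ↔ y = (v, j) ∨ Desc (v, ⟨j.val - 1, by omega⟩) y := by
  obtain ⟨u, k⟩ := y
  unfold Desc
  simp only [Prod.mk.injEq, Fin.le_def, Fin.ext_iff]
  constructor
  · rintro (⟨h1, h2⟩ | h1)
    · by_cases hk : k.val = j.val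
      · exact Or.inl ⟨h1, hk⟩
      · exact Or.inr (Or.inl ⟨h1, by omega⟩)
    · exact Or.inr (Or.inr h1)
  · rintro (⟨h1, h2⟩ | ⟨h1, h2⟩ | h1)
    · exact Or.inl ⟨h1, by omega⟩
    · exact Or.inl ⟨h1, by omega⟩
    · exact Or.inr h1

lemma desc_zero (v : List (Fin 4)) (y : Ed) :
    Desc (v, 0) y ↔ y = (v, 0) ∨ ∃ i, Desc (i :: v, 6) y := by
  obtain ⟨u, k⟩ := y
  unfold Desc
  simp only [Prod.mk.injEq, Fin.le_def, Fin.ext_iff]
  constructor
  · rintro (⟨h1, h2⟩ | ⟨⟨t, ht⟩, h2⟩)
    · left
      exact ⟨h1, by simpa using h2⟩
    · right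
      have htne : t ≠ [] := by
        rintro rfl
        exact h2 (by simpa using ht)
      obtain ⟨s, i, rfl⟩ : ∃ s i, t = s ++ [i] := ⟨t.dropLast, t.getLast htne,
        (List.dropLast_append_getLast htne).symm⟩
      refine ⟨i, ?_⟩
      by_cases hs : s = []
      · subst hs
        left
        refine ⟨by simpa using ht.symm, ?_⟩
        have := k.2
        show k.val ≤ 6
        omega
      · right
        refine ⟨⟨s, by simpa using ht⟩, ?_⟩
        intro heq
        apply hs
        have h3 : (s ++ [i] ++ v).length = (i :: v).length := by rw [ht, heq]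
        simp at h3
        exact h3
  · rintro (⟨h1, h2⟩ | ⟨i, ⟨h1, h2⟩ | ⟨⟨t, ht⟩, h2⟩⟩)
    · left
      exact ⟨h1, by omega⟩
    · right
      refine ⟨⟨[i], by simp [h1]⟩, ?_⟩
      intro heq
      have := congrArg List.length heq
      rw [h1] at this
      simp at this
    · right
      refine ⟨⟨t ++ [i], by simpa using ht⟩, ?_⟩
      intro heq
      have := congrArg List.length heq
      rw [← ht] at this
      simp at this
      omega

lemma desc_cons_unique (v : List (Fin 4)) (i i' : Fin 4) (y : Ed) (h : Desc (i :: v, 6) y)
    (h' : Desc (i' :: v, 6) y) : i = i' := by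
  have key : ∀ i : Fin 4, Desc (i :: v, 6) y → (i :: v) <:+ y.1 := by
    intro i h
    rcases h with ⟨h1, _⟩ | ⟨h1, _⟩
    · rw [h1]
    · exact h1
  have h1 := key i h
  have h2 := key i' h'
  have h3 : (i :: v) <:+ (i' :: v) := List.suffix_of_suffix_length_le h1 h2 (by simp)
  have h4 := h3.eq_of_length (by simp)
  simpa using h4

lemma not_desc_zero_cons (v : List (Fin 4)) (i : Fin 4) : ¬ Desc (i :: v, 6) (v, 0) := by
  rintro (⟨h1, _⟩ | ⟨⟨t, ht⟩, _⟩)
  · have := congrArg List.length h1
    simp at this
  · have := congrArg List.length ht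
    simp at this
    omega

lemma not_desc_pred (v : List (Fin 4)) (j : Fin 7) (h : 0 < j.val) :
    ¬ Desc (v, ⟨j.val - 1, by omega⟩) (v, j) := by
  rintro (⟨_, h1⟩ | ⟨_, h2⟩)
  · simp only [Fin.le_def] at h1
    omega
  · exact h2 rfl

lemma desc_of_cons {v : List (Fin 4)} {i : Fin 4} {y : Ed} (h : Desc (i :: v, 6) y) :
    Desc (v, 0) y := (desc_zero v y).mpr (Or.inr ⟨i, h⟩)

/-- Oriented edges. -/
inductive Dart
  | dn (x : Ed)
  | up (x : Ed)
  deriving DecidableEq

namespace Dart

/-- The edge. -/
def edge : Dart → Ed
  | dn x => x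
  | up x => x

/-- The edges of the branch behind the dart (with the edge of the dart). -/
def Br : Dart → Ed → Prop
  | dn x => fun y => Desc x y
  | up x => fun y => ¬ Desc x y ∨ y = x

instance (d : Dart) (y : Ed) : Decidable (Br d y) := by
  cases d <;> unfold Br <;> infer_instance

/-- The number of edges between the last branching vertex and the edge. -/
def off : Dart → ℕ
  | dn x => 6 - x.2.val
  | up x => x.2.val

/-- The next darts. -/
def succ : Dart → Finset Dart
  | dn x => if h : x.2.val = 0 then Finset.univ.image (fun i : Fin 4 => dn (i :: x.1, 6))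
      else {dn (x.1, ⟨x.2.val - 1, by omega⟩)}
  | up x => if h : x.2.val < 6 then {up (x.1, ⟨x.2.val + 1, by omega⟩)}
      else match x.1 with
        | [] => ∅
        | i :: w => insert (up (w, 0)) ((Finset.univ.erase i).image (fun i' : Fin 4 => dn (i' :: w, 6)))

lemma off_le (d : Dart) : d.off ≤ 6 := by
  cases d with
  | dn x => exact Nat.sub_le _ _
  | up x => exact Nat.le_of_lt_succ x.2.2

lemma br_edge (d : Dart) : d.Br d.edge := by
  cases d with
  | dn x => exact desc_refl x
  | up x => exact Or.inr rfl

lemma succ_small (d : Dart) (h : d.off < 6) : d.succ.card ≤ 1 ∧ ∀ d' ∈ d.succ, d'.off = d.off + 1 := by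
  cases d with
  | dn x =>
    obtain ⟨v, j⟩ := x
    simp only [off] at h
    have hj : ¬ j.val = 0 := by omega
    simp only [succ, hj, dite_false, card_singleton, le_refl, mem_singleton, true_and]
    rintro d' rfl
    simp only [off]
    have := j.2
    omega
  | up x =>
    obtain ⟨v, j⟩ := x
    simp only [off] at h
    simp only [succ, h, dite_true, card_singleton, le_refl, mem_singleton, true_and]
    rintro d' rfl
    simp only [off]

lemma succ_big (d : Dart) (h : d.off = 6) : d.succ.card ≤ 4 ∧ ∀ d' ∈ d.succ, d'.off = 0 := by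
  cases d with
  | dn x =>
    obtain ⟨v, j⟩ := x
    simp only [off] at h
    have hj : j.val = 0 := by omega
    simp only [succ, hj, dite_true]
    constructor
    · exact card_image_le.trans (by simp)
    · intro d' hd'
      rw [mem_image] at hd'
      obtain ⟨i, _, rfl⟩ := hd'
      rfl
  | up x =>
    obtain ⟨v, j⟩ := x
    simp only [off] at h
    have hj : ¬ j.val < 6 := by omega
    simp only [succ, hj, dite_false]
    cases v with
    | nil => simp
    | cons i w =>
      constructor
      · refine (card_insert_le _ _).trans ?_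
        have := card_image_le (s := Finset.univ.erase i) (f := fun i' : Fin 4 => dn (i' :: w, 6))
        rw [card_erase_of_mem (mem_univ i)] at this
        simp at this ⊢
        omega
      · intro d' hd'
        rw [mem_insert, mem_image] at hd'
        rcases hd' with rfl | ⟨i', _, rfl⟩ <;> rfl

lemma fin_six {j : Fin 7} (h : ¬ j.val < 6) : j = 6 := by
  apply Fin.ext
  have := j.2
  show j.val = 6
  omega

/-- The branches of the next darts are parts of the branch. -/
lemma succ_br (d d' : Dart) (h : d' ∈ d.succ) (y : Ed) (hy : d'.Br y) : d.Br y ∧ y ≠ d.edge := by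
  cases d with
  | dn x =>
    obtain ⟨v, j⟩ := x
    by_cases hj : j.val = 0
    · obtain rfl : j = 0 := Fin.ext hj
      simp only [succ, Fin.val_zero, dite_true, mem_image] at h
      obtain ⟨i, _, rfl⟩ := h
      refine ⟨desc_of_cons hy, ?_⟩
      rintro rfl
      exact not_desc_zero_cons v i hy
    · simp only [succ, hj, dite_false, mem_singleton] at h
      subst h
      refine ⟨(desc_step v j (by omega) y).mpr (Or.inr hy), ?_⟩
      rintro rfl
      exact not_desc_pred v j (by omega) hy
  | up x =>
    obtain ⟨v, j⟩ := x
    by_cases hj : j.val < 6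
    · simp only [succ, hj, dite_true, mem_singleton] at h
      subst h
      have h1 := desc_step v ⟨j.val + 1, by omega⟩ (Nat.succ_pos _) y
      simp only [Nat.add_sub_cancel] at h1
      have h2 := not_desc_pred v ⟨j.val + 1, by omega⟩ (Nat.succ_pos _)
      simp only [Nat.add_sub_cancel] at h2
      rcases hy with hy | hy
      · have h3 : ¬ Desc (v, j) y := fun h => hy (h1.mpr (Or.inr h))
        refine ⟨Or.inl h3, ?_⟩
        rintro rfl
        exact h3 (desc_refl _)
      · subst hy
        refine ⟨Or.inl h2, ?_⟩
        intro heq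
        simp only [edge, Prod.mk.injEq, Fin.ext_iff, true_and] at heq
        omega
    · obtain rfl := fin_six hj
      cases v with
      | nil => simp [succ] at h
      | cons i w =>
        simp only [succ, Fin.isValue] at h
        have h6 : ¬ ((6 : Fin 7).val < 6) := by decide
        simp only [h6, dite_false, mem_insert, mem_image, mem_erase] at h
        rcases h with rfl | ⟨i', hi', rfl⟩
        · rcases hy with hy | hy
          · have h3 : ¬ Desc (i :: w, 6) y := fun h => hy (desc_of_cons h)
            refine ⟨Or.inl h3, ?_⟩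
            rintro rfl
            exact h3 (desc_refl _)
          · subst hy
            refine ⟨Or.inl (not_desc_zero_cons w i), ?_⟩
            intro heq
            simp only [edge, Prod.mk.injEq] at heq
            exact absurd heq.2 (by decide)
        · have h3 : ¬ Desc (i :: w, 6) y := by
            intro h
            exact hi'.1 (desc_cons_unique w i' i y hy h)
          refine ⟨Or.inl h3, ?_⟩
          rintro rfl
          exact h3 (desc_refl _)

/-- The branches of the next darts are disjoint. -/
lemma succ_disj (d d₁ d₂ : Dart) (h₁ : d₁ ∈ d.succ) (h₂ : d₂ ∈ d.succ) (y : Ed) (hy₁ : d₁.Br y)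
    (hy₂ : d₂.Br y) : d₁ = d₂ := by
  cases d with
  | dn x =>
    obtain ⟨v, j⟩ := x
    by_cases hj : j.val = 0
    · obtain rfl : j = 0 := Fin.ext hj
      simp only [succ, Fin.val_zero, dite_true, mem_image] at h₁ h₂
      obtain ⟨i, _, rfl⟩ := h₁
      obtain ⟨i', _, rfl⟩ := h₂
      rw [desc_cons_unique v i i' y hy₁ hy₂]
    · simp only [succ, hj, dite_false, mem_singleton] at h₁ h₂
      rw [h₁, h₂]
  | up x =>
    obtain ⟨v, j⟩ := x
    by_cases hj : j.val < 6
    · simp only [succ, hj, dite_true, mem_singleton] at h₁ h₂
      rw [h₁, h₂]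
    · obtain rfl := fin_six hj
      cases v with
      | nil => simp [succ] at h₁
      | cons i w =>
        have h6 : ¬ ((6 : Fin 7).val < 6) := by decide
        simp only [succ, h6, dite_false, mem_insert, mem_image, mem_erase] at h₁ h₂
        have key : ∀ i', Br (up (w, 0)) y → Br (dn (i' :: w, 6)) y → False := by
          intro i' ha hb
          rcases ha with ha | ha
          · exact ha (desc_of_cons hb)
          · subst ha
            exact not_desc_zero_cons w i' hb
        rcases h₁ with rfl | ⟨i₁, _, rfl⟩ <;> rcases h₂ with rfl | ⟨i₂, _, rfl⟩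
        · rfl
        · exact (key _ hy₁ hy₂).elim
        · exact (key _ hy₂ hy₁).elim
        · rw [desc_cons_unique w i₁ i₂ y hy₁ hy₂]

end Dart

end Pool.Agent.Q175.PG
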